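import Pool.Agent.Helper6_Eng.Stmts

/-! # DNS: a square `s` with `s - 1` not a square -/

set_option autoImplicit false

namespace Pool.Agent.Eng.H42

theorem dns : DnsStmt := by
  intro F _ _ h2 hcard
  by_contra hcon
  push Not at hcon
  classical
  -- differences of nonzero squares are squares
  have hdiff : ∀ a b : F, a ≠ 0 → b ≠ 0 → IsSquare (a ^ 2 - b ^ 2) := by
    intro a b ha hb
    have h1 := hcon (a / b) (div_ne_zero ha hb)
    obtain ⟨c, hc⟩ := h1
    refine ⟨b * c, ?_⟩
    have : a ^ 2 - b ^ 2 = b ^ 2 * ((a / b) ^ 2 - 1) := by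
      field_simp
    rw [this, hc]
    ring
  -- a suitable element
  obtain ⟨t, ht⟩ : ∃ t : F, t ∉ ({0, 1, -1} : Finset F) := by
    by_contra h
    push Not at h
    have h1 : Nat.card F ≤ 3 := by
      cases nonempty_fintype F
      rw [Nat.card_eq_fintype_card]
      calc Fintype.card F = (Finset.univ : Finset F).card := rfl
        _ ≤ ({0, 1, -1} : Finset F).card := Finset.card_le_card fun x _ => h x
        _ ≤ 3 := Finset.card_le_three
    omega
  simp only [Finset.mem_insert, Finset.mem_singleton, not_or] at ht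
  obtain ⟨ht0, ht1, ht2⟩ := ht
  have hne : t ^ 2 - 1 ≠ 0 := by
    intro h
    have : (t - 1) * (t + 1) = 0 := by
      rw [← h]
      ring
    rcases mul_eq_zero.1 this with h | h
    · exact ht1 (sub_eq_zero.1 h)
    · exact ht2 (eq_neg_of_add_eq_zero_left h)
  have hneg : IsSquare (-1 : F) := by
    obtain ⟨a, ha⟩ := hcon t ht0
    obtain ⟨b, hb⟩ : IsSquare ((1 : F) ^ 2 - t ^ 2) := hdiff 1 t one_ne_zero ht0
    have ha0 : a ≠ 0 := by
      rintro rfl
      apply hne
      rw [ha, mul_zero]
    refine ⟨b / a, ?_⟩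
    have h3 : b * b = -(a * a) := by
      rw [← hb, ← ha]
      ring
    rw [div_mul_div_comm, h3, neg_div, div_self (mul_ne_zero ha0 ha0)]
  -- every element is a square
  have hchar : ringChar F ≠ 2 := by
    intro h
    apply h2
    have := ringChar.spec F 2
    have h3 : ((2 : ℕ) : F) = 0 := (ringChar.spec F 2).2 (by rw [h])
    exact_mod_cast h3
  obtain ⟨x, hx⟩ := FiniteField.exists_nonsquare hchar
  apply hx
  have hxe : x = ((x + 1) / 2) ^ 2 - ((x - 1) / 2) ^ 2 := by
    field_simp
    ring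
  by_cases ha : (x + 1) / 2 = 0
  · rw [ha] at hxe
    obtain ⟨c, hc⟩ := hneg
    refine ⟨c * ((x - 1) / 2), ?_⟩
    calc x = (-1) * ((x - 1) / 2) ^ 2 := by
          conv_lhs => rw [hxe]
          ring
      _ = c * ((x - 1) / 2) * (c * ((x - 1) / 2)) := by
          rw [hc]
          ring
  · by_cases hb : (x - 1) / 2 = 0
    · rw [hb] at hxe
      refine ⟨(x + 1) / 2, ?_⟩
      conv_lhs => rw [hxe]
      ring
    · rw [hxe]
      exact hdiff _ _ ha hb

end Pool.Agent.Eng.H42
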