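import Pool.Agent.Helper6_Eng.Stmts

/-! # TSP: the 2-part in characteristic 2 -/

set_option autoImplicit false

namespace Pool.Agent.Eng.H42

theorem tsp (h8 : T8Stmt) (hN : TntStmt) (hE : TfeStmt) (hB : SpBcStmt) (hM : SpMonoStmt) :
    TspStmt := by
  intro F _ _ _ m k hm hk hkm
  let _ : Algebra (ZMod 2) F := ZMod.algebra F 2
  by_cases hk3 : k ≤ 3
  · have h1 : PD (PSp m F) 8 := hM F 2 m 8 hm (hB (ZMod 2) F 2 8 h8)
    intro d hd hL
    have h2 : (2 : ℕ) ^ k ∣ 2 ^ 3 := pow_dvd_pow 2 hk3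
    exact h2.trans (h1 d hd hL)
  · obtain ⟨t, rfl⟩ : ∃ t, k = t + 2 := ⟨k - 2, by omega⟩
    have ht : 2 ≤ t := by omega
    obtain ⟨P, hP, hdvd, hord⟩ := hN t ht
    have h1 := hE t P (2 ^ (t + 2)) (by omega) hP hdvd hord
    have h2 : 2 ^ t ≤ m := by
      have h3 : t + 2 - 1 = t + 1 := rfl
      rw [h3, pow_succ] at hkm
      omega
    exact hM F (2 ^ t) m _ h2 (hB (ZMod 2) F (2 ^ t) _ h1)

end Pool.Agent.Eng.H42
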